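import Pool.Agent.W845.Cyc.Lazy2

open Finset Filter Topology

namespace Pool.Agent.W845.Cyc

open Pool.Agent.Helper394

noncomputable section

variable {G : Type*} [AddCommGroup G] [Fintype G] [DecidableEq G] {S : Finset G} {T q : ℕ}

theorem Bad2.closed (hT : 64 ≤ T) (h : Bad2 S T q) (C : Set G) (x : G) (hx : x ∈ C)
    (hC : ∀ y ∈ C, ∀ s ∈ S, y + s ∈ C) (z : G) : z ∈ C := by
  classical
  by_contra hz
  have h1 : ∀ n y, y ∈ C → (U S ^ n) (fun w => if w = z then (1 : ℝ) else 0) y = 0 := by
    intro n
    induction n with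
    | zero =>
      intro y hy
      have : y ≠ z := fun h => hz (h ▸ hy)
      simp [this]
    | succ n ih =>
      intro y hy
      rw [U_pow_succ_apply, U_apply]
      rw [Finset.sum_eq_zero fun s hs => ih _ (hC y hy s hs), zero_div]
  have h2 := h.upper T (fun w => if w = z then (1 : ℝ) else 0)
    (fun w => by split_ifs <;> norm_num) x
  rw [h1 (2 + T) x hx] at h2
  simp only [Finset.sum_ite_eq', Finset.mem_univ, if_true] at h2
  have hG : (0 : ℝ) < Fintype.card G := by exact_mod_cast Fintype.card_pos
  have h3 : 0 < ck T T * (1 / (Fintype.card G : ℝ)) := mul_pos (ck_pos hT) (by positivity)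
  rw [ck] at h3
  linarith

end

section conn

variable {G : Type} [AddCommGroup G] [Fintype G] [DecidableEq G]

theorem cay_connected2 {S : Finset G} {T q : ℕ} (hT : 64 ≤ T) (h : Bad2 S T q) :
    (cay S h.zero h.neg).Connected := by
  rw [SimpleGraph.connected_iff_exists_forall_reachable]
  refine ⟨0, fun z => ?_⟩
  refine h.closed hT {y | (cay S h.zero h.neg).Reachable 0 y} 0 (SimpleGraph.Reachable.refl _) ?_ z
  intro y hy s hs
  have h1 : (cay S h.zero h.neg).Adj y (y + s) := by
    rw [cay_adj]; simpa using hs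
  exact SimpleGraph.Reachable.trans hy h1.reachable

end conn

end Pool.Agent.W845.Cyc
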