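import Pool.Agent.W845.Cyc.Defs
import Pool.Agent.Helper394.Wrap

open Finset

namespace Pool.Agent.W845.Cyc

open Pool.Agent.Helper394

noncomputable section

variable {n : ℕ} [NeZero n]

theorem unifOn_prob (S : Finset (ZMod n)) (hS : S.Nonempty) : IsProb (unifOn S) := by
  have hc : (0 : ℝ) < S.card := by exact_mod_cast hS.card_pos
  refine ⟨fun x => ?_, ?_⟩
  · rw [unifOn]; split_ifs <;> positivity
  · simp only [unifOn]
    rw [← Finset.sum_filter]
    simp
    field_simp

theorem law_sum (μ : ZMod n → ℝ) (h : IsProb μ) (t : ℕ) : ∑ x, law μ t x = 1 := by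
  induction t with
  | zero => simp [law]
  | succ t ih =>
    simp only [law]
    rw [Finset.sum_comm]
    have : ∀ y, ∑ x, law μ t (x - y) * μ y = μ y := by
      intro y
      have e := Equiv.sum_comp (Equiv.subRight y) (fun x => law μ t x)
      simp only [Equiv.subRight_apply] at e
      rw [← Finset.sum_mul, e, ih, one_mul]
    simp only [this, h.2]

theorem law_nonneg (μ : ZMod n → ℝ) (h : IsProb μ) (t : ℕ) (x : ZMod n) : 0 ≤ law μ t x := by
  induction t generalizing x with
  | zero => simp only [law]; split_ifs <;> norm_num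
  | succ t ih => exact Finset.sum_nonneg fun y _ => mul_nonneg (ih _) (h.1 _)

/-- duality between the averaging operator and the law of the walk -/
theorem U_pow_eq (S : Finset (ZMod n)) (t : ℕ) (f : ZMod n → ℝ) (x : ZMod n) :
    (U S ^ t) f x = ∑ y, law (unifOn S) t y * f (x + y) := by
  induction t generalizing x with
  | zero => simp [law]
  | succ t ih =>
    rw [U_pow_succ_apply, U_apply]
    have e1 : (∑ s ∈ S, (U S ^ t) f (x + s)) / (S.card : ℝ) =
        ∑ s, unifOn S s * (U S ^ t) f (x + s) := by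
      simp only [unifOn, ite_mul, zero_mul]
      rw [← Finset.sum_filter, Finset.sum_div]
      simp only [Finset.filter_mem_eq_inter, Finset.univ_inter]
      exact Finset.sum_congr rfl fun s _ => by ring
    rw [e1]
    simp only [ih, law]
    simp only [Finset.sum_mul, Finset.mul_sum]
    rw [Finset.sum_comm]
    conv_rhs => rw [Finset.sum_comm]
    rw [Finset.sum_comm]
    refine Finset.sum_congr rfl fun s _ => ?_
    rw [← Equiv.sum_comp (Equiv.subRight s)]
    refine Finset.sum_congr rfl fun y _ => ?_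
    simp only [Equiv.subRight_apply]
    have : x + s + (y - s) = x + y := by ring
    rw [this]
    ring

theorem tv_conv (μ : ZMod n → ℝ) (t : ℕ) :
    tv μ t = (1 / 2 : ℝ) * ∑ x, |law μ t x - 1 / (Fintype.card (ZMod n) : ℝ)| := by
  rw [tv, ZMod.card]

theorem bad_tv_lower {S : Finset (ZMod n)} {T : ℕ} (h : Bad S T) (t : ℕ) (ht : t ≤ T) :
    (17 / 32 : ℝ) ≤ tv (unifOn S) t := by
  obtain ⟨E, hE, hl⟩ := h.lower
  rw [tv_conv]
  refine tv_ge _ (law_sum _ (unifOn_prob S h.nonempty) t) E hE ?_
  have := hl t ht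
  rw [U_pow_eq] at this
  simpa using this

theorem bad_law_lower {S : Finset (ZMod n)} {T : ℕ} (h : Bad S T) (t : ℕ) (ht : T ≤ 8 * t)
    (x : ZMod n) : (1 / 1000 : ℝ) / Fintype.card (ZMod n) ≤ law (unifOn S) t x := by
  have := h.upper t ht (Pi.single x 1) (fun z => by
    rw [Pi.single_apply]; split_ifs <;> norm_num) 0
  rw [Finset.sum_pi_single' x (1 : ℝ) univ, U_pow_eq] at this
  simp only [Finset.mem_univ, if_true, zero_add] at this
  have e : ∑ y, law (unifOn S) t y * (Pi.single x (1 : ℝ) : ZMod n → ℝ) y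
      = law (unifOn S) t x := by
    simp [Pi.single_apply]
  rw [e] at this
  calc (1 / 1000 : ℝ) / Fintype.card (ZMod n) = (1 / 1000 : ℝ) * (1 / Fintype.card (ZMod n)) := by
        ring
    _ ≤ _ := this

theorem bad_tv_upper {S : Finset (ZMod n)} {T : ℕ} (h : Bad S T) (t : ℕ) (ht : T ≤ 8 * t) :
    tv (unifOn S) t ≤ 1 - 1 / 1000 := by
  rw [tv_conv]
  exact tv_le _ (law_sum _ (unifOn_prob S h.nonempty) t) _ (fun y => bad_law_lower h t ht y)
    (by norm_num)

theorem bad_tv_conv {S : Finset (ZMod n)} {T : ℕ} (h : Bad S T) (ε : ℝ) (hε : 0 < ε) :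
    ∃ t, tv (unifOn S) t ≤ ε := by
  have hG : (0 : ℝ) < Fintype.card (ZMod n) := by exact_mod_cast Fintype.card_pos
  obtain ⟨k, hk⟩ := exists_pow_lt_of_lt_one (show 0 < ε / Fintype.card (ZMod n) by positivity)
    (show (1 - 1 / 1000 : ℝ) < 1 by norm_num)
  refine ⟨T * k, ?_⟩
  have key : ∀ y, |law (unifOn S) (T * k) y - 1 / (Fintype.card (ZMod n) : ℝ)| ≤
      ε / Fintype.card (ZMod n) := by
    intro y
    have h1 := doeblin (U S ^ T) (1 / 1000)
      (fun a => U_pow_const S h.nonempty _ a) (fun f => sum_U_pow S h.nonempty _ f)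
      (fun f hf x => h.upper T (by omega) f hf x) (Pi.single y 1) 0 1
      (fun z => by rw [Pi.single_apply]; split_ifs <;> norm_num)
      (fun z => by rw [Pi.single_apply]; split_ifs <;> norm_num) k 0
    rw [Finset.sum_pi_single' y (1 : ℝ) univ, ← pow_mul, U_pow_eq] at h1
    simp only [Finset.mem_univ, if_true, sub_zero, mul_one, zero_add] at h1
    have e : ∑ z, law (unifOn S) (T * k) z * (Pi.single y (1 : ℝ) : ZMod n → ℝ) z
        = law (unifOn S) (T * k) y := by
      simp [Pi.single_apply]
    rw [e] at h1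
    exact h1.trans hk.le
  rw [tv_conv]
  calc (1 / 2 : ℝ) * ∑ y, |law (unifOn S) (T * k) y - 1 / (Fintype.card (ZMod n) : ℝ)|
      ≤ (1 / 2 : ℝ) * ∑ _y : ZMod n, ε / Fintype.card (ZMod n) := by
        gcongr with y
        exact key y
    _ = ε / 2 := by
        simp only [Finset.sum_const, Finset.card_univ, nsmul_eq_mul]
        field_simp
    _ ≤ ε := by linarith

/-- the additive character with index `j` -/
def chr (j : ZMod n) : AddChar (ZMod n) ℂ := ZMod.stdAddChar.mulShift j

theorem chr_apply (j x : ZMod n) : chr j x =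
    Complex.exp (2 * Real.pi * Complex.I * ((j.val : ℂ) * (x.val : ℂ)) / (n : ℂ)) := by
  have e : j * x = (((j.val * x.val : ℕ) : ℤ) : ZMod n) := by
    push_cast
    rw [ZMod.natCast_zmod_val, ZMod.natCast_zmod_val]
  rw [chr, AddChar.mulShift_apply, e, ZMod.stdAddChar_coe]
  congr 1
  push_cast
  ring

theorem chr_ne (j : ZMod n) (hj : j ≠ 0) : chr j ≠ 1 := by
  intro h
  apply hj
  have := ZMod.isPrimitive_stdAddChar n
  by_contra hj'
  exact this hj' h

theorem eig_eq (S : Finset (ZMod n)) (j : ZMod n) :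
    eig (unifOn S) j = (∑ s ∈ S, chr j s) / (S.card : ℂ) := by
  rw [eig, Finset.sum_div]
  have : ∀ x : ZMod n, ((unifOn S x : ℝ) : ℂ) *
      Complex.exp (2 * Real.pi * Complex.I * ((j.val : ℂ) * (x.val : ℂ)) / (n : ℂ)) =
      if x ∈ S then chr j x / (S.card : ℂ) else 0 := by
    intro x
    rw [← chr_apply, unifOn]
    split_ifs
    · push_cast; ring
    · simp
  simp only [this]
  rw [← Finset.sum_filter]
  simp

theorem bad_eig {S : Finset (ZMod n)} {T : ℕ} (h : Bad S T) (j : ZMod n) (hj : j ≠ 0) :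
    ‖eig (unifOn S) j‖ ≤ 3 / 4 := by
  have hc : (0 : ℝ) < S.card := by exact_mod_cast h.nonempty.card_pos
  rw [eig_eq, norm_div, div_le_iff₀ (by simpa using h.nonempty.card_pos)]
  have := h.char (chr j) (chr_ne j hj)
  simpa using this

theorem lamStar_nonneg (μ : ZMod n → ℝ) : 0 ≤ lamStar μ :=
  Real.iSup_nonneg fun _ => norm_nonneg _

theorem bad_lamStar {S : Finset (ZMod n)} {T : ℕ} (h : Bad S T) :
    lamStar (unifOn S) ≤ 3 / 4 :=
  Real.iSup_le (fun j => bad_eig h j.1 j.2) (by norm_num)

theorem bad_ergodic {S : Finset (ZMod n)} {T : ℕ} (h : Bad S T) : Ergodic (unifOn S) := by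
  intro H a hH
  have key : ∀ t x, law (unifOn S) t x ≠ 0 → x - t • a ∈ H := by
    intro t
    induction t with
    | zero =>
      intro x hx
      simp only [law] at hx
      have : x = 0 := by
        by_contra h0
        simp [h0] at hx
      simp [this, H.zero_mem]
    | succ t ih =>
      intro x hx
      simp only [law] at hx
      obtain ⟨y, -, hy⟩ := Finset.exists_ne_zero_of_sum_ne_zero hx
      have h1 := ih (x - y) (left_ne_zero_of_mul hy)
      have h2 := hH y (right_ne_zero_of_mul hy)
      have h3 := H.add_mem h1 h2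
      have : x - y - t • a + (y - a) = x - (t + 1) • a := by
        rw [add_smul, one_smul]; ring
      rwa [this] at h3
  rw [eq_top_iff]
  intro x _
  have hG : (0 : ℝ) < Fintype.card (ZMod n) := by exact_mod_cast Fintype.card_pos
  have hpos : ∀ y, law (unifOn S) T y ≠ 0 := by
    intro y
    have := bad_law_lower h T (by omega) y
    have h2 : (0 : ℝ) < (1 / 1000 : ℝ) / Fintype.card (ZMod n) := by positivity
    intro h0
    rw [h0] at this
    linarith
  have := key T (x + T • a) (hpos _)
  simpa using this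

end

end Pool.Agent.W845.Cyc
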