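import Pool.Agent.W845.Cyc.Bad2

open Finset Filter Topology

namespace Pool.Agent.W845.Cyc

open Pool.Agent.Helper394

noncomputable section

variable {n : ℕ} [NeZero n]

theorem tv_ge' {G : Type*} [Fintype G] [DecidableEq G] [Nonempty G] (p : G → ℝ)
    (hp : ∑ y, p y = 1) (E : Finset G)
    (q a : ℝ) (hq : 0 < q) (hE : q * (E.card : ℝ) ≤ Fintype.card G)
    (hpE : a ≤ ∑ y, p y * (if y ∈ E then (1 : ℝ) else 0)) :
    a - 1 / q ≤ (1 / 2 : ℝ) * ∑ y, |p y - 1 / (Fintype.card G : ℝ)| := by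
  have hG : (0 : ℝ) < Fintype.card G := by exact_mod_cast Fintype.card_pos
  have h1 : ∑ y, (p y - 1 / (Fintype.card G : ℝ)) = 0 := by
    rw [Finset.sum_sub_distrib, hp]
    simp only [Finset.sum_const, Finset.card_univ, nsmul_eq_mul]
    field_simp
    norm_num
  set r : G → ℝ := fun y => p y - 1 / (Fintype.card G : ℝ) with hr
  have h2 : ∑ y, r y * (2 * (if y ∈ E then (1 : ℝ) else 0) - 1) ≤ ∑ y, |r y| := by
    apply Finset.sum_le_sum
    intro y _
    split_ifs
    · have := le_abs_self (r y); linarith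
    · have := neg_abs_le (r y); linarith
  have h3 : ∑ y, r y * (2 * (if y ∈ E then (1 : ℝ) else 0) - 1) =
      2 * (∑ y, p y * (if y ∈ E then (1 : ℝ) else 0)) - 2 * (E.card / Fintype.card G) := by
    have e1 : ∀ y, r y * (2 * (if y ∈ E then (1 : ℝ) else 0) - 1) =
        2 * (p y * (if y ∈ E then (1 : ℝ) else 0)) -
        (2 / (Fintype.card G : ℝ)) * (if y ∈ E then (1 : ℝ) else 0) - r y := by
      intro y
      simp only [hr]
      ring
    simp only [e1]
    rw [Finset.sum_sub_distrib, Finset.sum_sub_distrib, h1, ← Finset.mul_sum, ← Finset.mul_sum]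
    simp
    ring
  have h4 : (E.card : ℝ) / Fintype.card G ≤ 1 / q := by
    rw [div_le_div_iff₀ hG hq]
    linarith
  change a - 1 / q ≤ (1 / 2 : ℝ) * ∑ y, |r y|
  linarith

theorem Bad2.nonempty {G : Type*} [AddCommGroup G] [Fintype G] [DecidableEq G] {S : Finset G}
    {T q : ℕ} (hT : 64 ≤ T) (hq : 64 ≤ q) (h : Bad2 S T q) : S.Nonempty := by
  rw [Finset.nonempty_iff_ne_empty]
  rintro rfl
  obtain ⟨E, -, hl⟩ := h.lower
  have h1 := hl 1 (by nlinarith)
  rw [pow_one, pow_one, U_apply] at h1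
  simp only [Finset.card_empty, Nat.cast_zero, div_zero] at h1
  have hT' : (64 : ℝ) ≤ T := by exact_mod_cast hT
  have hq' : (64 : ℝ) ≤ q := by exact_mod_cast hq
  have h2 : 1 / (q : ℝ) ≤ 1 / 64 := one_div_le_one_div_of_le (by norm_num) hq'
  have h3 : 1 / (4 * (T : ℝ)) ≤ 1 / 64 := one_div_le_one_div_of_le (by norm_num) (by linarith)
  nlinarith

variable {S : Finset (ZMod n)} {T q : ℕ}

theorem bad2_tv_lower (hT : 64 ≤ T) (hq : 64 ≤ q) (h : Bad2 S T q) (t : ℕ) (ht : t ≤ T * T) :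
    (1 - 1 / (4 * (T : ℝ))) ^ t * (1 - 1 / (q : ℝ)) - 1 / (q : ℝ) ≤ tv (unifOn S) t := by
  obtain ⟨E, hE, hl⟩ := h.lower
  rw [tv_conv]
  refine tv_ge' _ (law_sum _ (unifOn_prob S (h.nonempty hT hq)) t) E q _
    (by have : (64 : ℝ) ≤ q := by exact_mod_cast hq
        linarith) hE ?_
  have := hl t ht
  rw [U_pow_eq] at this
  simpa using this

/-- the minorisation constant after `2 + k` steps -/
def ck (T k : ℕ) : ℝ := (1 - (1 - 1 / (9 * (T : ℝ))) ^ k) * (2 / 5 : ℝ)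

theorem bad2_law_lower (h : Bad2 S T q) (k : ℕ) (x : ZMod n) :
    ck T k / Fintype.card (ZMod n) ≤ law (unifOn S) (2 + k) x := by
  have := h.upper k (Pi.single x 1) (fun z => by
    rw [Pi.single_apply]; split_ifs <;> norm_num) 0
  rw [Finset.sum_pi_single' x (1 : ℝ) univ, U_pow_eq] at this
  simp only [Finset.mem_univ, if_true, zero_add] at this
  have e : ∑ y, law (unifOn S) (2 + k) y * (Pi.single x (1 : ℝ) : ZMod n → ℝ) y
      = law (unifOn S) (2 + k) x := by
    simp [Pi.single_apply]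
  rw [e] at this
  calc ck T k / Fintype.card (ZMod n) = ck T k * (1 / Fintype.card (ZMod n)) := by
        ring
    _ ≤ _ := this

theorem ck_le (hT : 64 ≤ T) (k : ℕ) : ck T k ≤ 1 := by
  have hT' : (64 : ℝ) ≤ T := by exact_mod_cast hT
  have h1 : 1 / (9 * (T : ℝ)) ≤ 1 / 64 := one_div_le_one_div_of_le (by norm_num) (by linarith)
  have h2 : (0 : ℝ) ≤ (1 - 1 / (9 * (T : ℝ))) ^ k := pow_nonneg (by linarith) _
  rw [ck]
  linarith

theorem ck_pos (hT : 64 ≤ T) : 0 < ck T T := by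
  have hT' : (64 : ℝ) ≤ T := by exact_mod_cast hT
  have h0 : (0 : ℝ) < 1 / (9 * (T : ℝ)) := by positivity
  have h1 : 1 / (9 * (T : ℝ)) ≤ 1 / 64 := one_div_le_one_div_of_le (by norm_num) (by linarith)
  have h2 : (1 - 1 / (9 * (T : ℝ))) ^ T < 1 :=
    pow_lt_one₀ (by linarith) (by linarith) (by omega)
  rw [ck]
  linarith

/-- lower bound for the minorisation constant -/
theorem ck_ge (hT : 64 ≤ T) (k : ℕ) (hk : k ≤ 9 * T) : (k : ℝ) / (45 * T) ≤ ck T k := by
  have hT' : (64 : ℝ) ≤ T := by exact_mod_cast hT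
  have h0 : (0 : ℝ) < 1 / (9 * (T : ℝ)) := by positivity
  have h1 : 1 / (9 * (T : ℝ)) ≤ 1 / 64 := one_div_le_one_div_of_le (by norm_num) (by linarith)
  have h2 := bern_inv (1 / (9 * (T : ℝ))) h0.le (by linarith) k
  have hk' : (k : ℝ) ≤ 9 * T := by exact_mod_cast hk
  set x : ℝ := k * (1 / (9 * (T : ℝ))) with hx
  have hx0 : 0 ≤ x := by positivity
  have hx1 : x ≤ 1 := by
    rw [hx, mul_one_div, div_le_one (by positivity)]
    exact hk'
  have h3 : 1 / (1 + x) ≤ 1 - x / 2 := by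
    rw [div_le_iff₀ (by linarith)]
    nlinarith
  have h4 : (k : ℝ) / (45 * T) = x / 5 := by
    rw [hx]; field_simp; ring
  rw [ck, h4]
  linarith

theorem bad2_tv_upper (hT : 64 ≤ T) (hq : 64 ≤ q) (h : Bad2 S T q) (k : ℕ) :
    tv (unifOn S) (2 + k) ≤ 1 - ck T k := by
  rw [tv_conv]
  exact tv_le _ (law_sum _ (unifOn_prob S (h.nonempty hT hq)) _) _
    (fun y => bad2_law_lower h k y) (ck_le hT k)

theorem bad2_tv_conv (hT : 64 ≤ T) (hq : 64 ≤ q) (h : Bad2 S T q) (ε : ℝ) (hε : 0 < ε) :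
    ∃ t, tv (unifOn S) t ≤ ε := by
  have hG : (0 : ℝ) < Fintype.card (ZMod n) := by exact_mod_cast Fintype.card_pos
  have hc := ck_pos hT
  have hc1 := ck_le hT T
  obtain ⟨k, hk⟩ := exists_pow_lt_of_lt_one (show 0 < ε / Fintype.card (ZMod n) by positivity)
    (show (1 - ck T T : ℝ) < 1 by linarith)
  refine ⟨(2 + T) * k, ?_⟩
  have key : ∀ y, |law (unifOn S) ((2 + T) * k) y - 1 / (Fintype.card (ZMod n) : ℝ)| ≤
      ε / Fintype.card (ZMod n) := by
    intro y
    have h1 := doeblin (U S ^ (2 + T)) (ck T T)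
      (fun a => U_pow_const S (h.nonempty hT hq) _ a)
      (fun f => sum_U_pow S (h.nonempty hT hq) _ f)
      (fun f hf x => h.upper T f hf x) (Pi.single y 1) 0 1
      (fun z => by rw [Pi.single_apply]; split_ifs <;> norm_num)
      (fun z => by rw [Pi.single_apply]; split_ifs <;> norm_num) k 0
    rw [Finset.sum_pi_single' y (1 : ℝ) univ, ← pow_mul, U_pow_eq] at h1
    simp only [Finset.mem_univ, if_true, sub_zero, mul_one, zero_add] at h1
    have e : ∑ z, law (unifOn S) ((2 + T) * k) z * (Pi.single y (1 : ℝ) : ZMod n → ℝ) z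
        = law (unifOn S) ((2 + T) * k) y := by
      simp [Pi.single_apply]
    rw [e] at h1
    exact h1.trans hk.le
  rw [tv_conv]
  calc (1 / 2 : ℝ) * ∑ y, |law (unifOn S) ((2 + T) * k) y - 1 / (Fintype.card (ZMod n) : ℝ)|
      ≤ (1 / 2 : ℝ) * ∑ _y : ZMod n, ε / Fintype.card (ZMod n) := by
        gcongr with y
        exact key y
    _ = ε / 2 := by
        simp only [Finset.sum_const, Finset.card_univ, nsmul_eq_mul]
        field_simp
    _ ≤ ε := by linarith

theorem bad2_eig (hT : 64 ≤ T) (hq : 64 ≤ q) (h : Bad2 S T q) (j : ZMod n) (hj : j ≠ 0) :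
    ‖eig (unifOn S) j‖ ≤ 3 / 4 := by
  have hne := h.nonempty hT hq
  have hc : (0 : ℝ) < S.card := by exact_mod_cast hne.card_pos
  rw [eig_eq, norm_div, div_le_iff₀ (by simpa using hne.card_pos)]
  have := h.char (chr j) (chr_ne j hj)
  simpa using this

theorem bad2_lamStar (hT : 64 ≤ T) (hq : 64 ≤ q) (h : Bad2 S T q) :
    lamStar (unifOn S) ≤ 3 / 4 :=
  Real.iSup_le (fun j => bad2_eig hT hq h j.1 j.2) (by norm_num)

theorem bad2_ergodic (hT : 64 ≤ T) (h : Bad2 S T q) : Ergodic (unifOn S) := by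
  intro H a hH
  have key : ∀ t x, law (unifOn S) t x ≠ 0 → x - t • a ∈ H := by
    intro t
    induction t with
    | zero =>
      intro x hx
      simp only [law] at hx
      have : x = 0 := by
        by_contra h0
        simp [h0] at hx
      simp [this, H.zero_mem]
    | succ t ih =>
      intro x hx
      simp only [law] at hx
      obtain ⟨y, -, hy⟩ := Finset.exists_ne_zero_of_sum_ne_zero hx
      have h1 := ih (x - y) (left_ne_zero_of_mul hy)
      have h2 := hH y (right_ne_zero_of_mul hy)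
      have h3 := H.add_mem h1 h2
      have : x - y - t • a + (y - a) = x - (t + 1) • a := by
        rw [add_smul, one_smul]; ring
      rwa [this] at h3
  rw [eq_top_iff]
  intro x _
  have hG : (0 : ℝ) < Fintype.card (ZMod n) := by exact_mod_cast Fintype.card_pos
  have hpos : ∀ y, law (unifOn S) (2 + T) y ≠ 0 := by
    intro y
    have := bad2_law_lower h T y
    have h2 : (0 : ℝ) < ck T T / Fintype.card (ZMod n) := div_pos (ck_pos hT) hG
    intro h0
    rw [h0] at this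
    linarith
  have := key (2 + T) (x + (2 + T) • a) (hpos _)
  simpa using this

/-- lower bound for the mixing time: more than `M * T` steps at level `(3/4)^M / 2` -/
theorem bad2_tmix_ge (hT : 64 ≤ T) (hq : 64 ≤ q) (h : Bad2 S T q) (M : ℕ) (hM : M ≤ T)
    (ε : ℝ) (hε : 0 < ε) (hε1 : ε + 2 / (q : ℝ) < (3 / 4 : ℝ) ^ M) :
    M * T < tmix (unifOn S) ε := by
  have hT' : (64 : ℝ) ≤ T := by exact_mod_cast hT
  have hq' : (64 : ℝ) ≤ q := by exact_mod_cast hq
  have hne : {t : ℕ | tv (unifOn S) t ≤ ε}.Nonempty := bad2_tv_conv hT hq h ε hε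
  have hmem := Nat.sInf_mem hne
  by_contra hcon
  push Not at hcon
  have hmem' : tv (unifOn S) (tmix (unifOn S) ε) ≤ ε := hmem
  have h1 := bad2_tv_lower hT hq h (tmix (unifOn S) ε)
    (hcon.trans (Nat.mul_le_mul_right _ hM))
  have hx0 : (0 : ℝ) < 1 / (4 * (T : ℝ)) := by positivity
  have hx1 : 1 / (4 * (T : ℝ)) ≤ 1 / 64 := one_div_le_one_div_of_le (by norm_num) (by linarith)
  have h2 : (1 - 1 / (4 * (T : ℝ))) ^ (M * T) ≤
      (1 - 1 / (4 * (T : ℝ))) ^ (tmix (unifOn S) ε) :=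
    pow_le_pow_of_le_one (by linarith) (by linarith) hcon
  have h3 : (3 / 4 : ℝ) ≤ (1 - 1 / (4 * (T : ℝ))) ^ T := by
    have h4 : (1 : ℝ) + T * (-(1 / (4 * (T : ℝ)))) ≤ (1 + (-(1 / (4 * (T : ℝ))))) ^ T := by
      apply one_add_mul_le_pow
      linarith
    have h5 : (1 : ℝ) + T * (-(1 / (4 * (T : ℝ)))) = 3 / 4 := by field_simp; norm_num
    rw [h5] at h4
    simpa [sub_eq_add_neg] using h4
  have h4 : (3 / 4 : ℝ) ^ M ≤ (1 - 1 / (4 * (T : ℝ))) ^ (M * T) := by
    rw [mul_comm M T, pow_mul]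
    exact pow_le_pow_left₀ (by norm_num) h3 M
  have h5 : (1 - 1 / (4 * (T : ℝ))) ^ (tmix (unifOn S) ε) ≤ 1 :=
    pow_le_one₀ (by linarith) (by linarith)
  have h6 : (0 : ℝ) < 1 / q := by positivity
  have h7 : (2 : ℝ) / q = 1 / q + 1 / q := by ring
  rw [h7] at hε1
  nlinarith

/-- upper bound for the mixing time at level `1 - ε` -/
theorem bad2_tmix_le (hT : 64 ≤ T) (hq : 64 ≤ q) (h : Bad2 S T q) (ε : ℝ) (hε : 0 < ε)
    (hε1 : ε ≤ 1 / 10) : (tmix (unifOn S) (1 - ε) : ℝ) ≤ 45 * ε * T + 3 := by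
  have hT' : (64 : ℝ) ≤ T := by exact_mod_cast hT
  set k := ⌈45 * ε * (T : ℝ)⌉₊ with hk
  have hk1 : 45 * ε * (T : ℝ) ≤ k := Nat.le_ceil _
  have hk2 : (k : ℝ) < 45 * ε * T + 1 := Nat.ceil_lt_add_one (by positivity)
  have hk3 : k ≤ 9 * T := by
    have : (k : ℝ) ≤ 9 * T := by nlinarith
    exact_mod_cast this
  have h1 := bad2_tv_upper hT hq h k
  have h2 := ck_ge hT k hk3
  have h3 : ε ≤ (k : ℝ) / (45 * T) := by
    rw [le_div_iff₀ (by positivity)]
    linarith
  have h4 : tmix (unifOn S) (1 - ε) ≤ 2 + k := Nat.sInf_le (by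
    show tv (unifOn S) (2 + k) ≤ 1 - ε
    linarith)
  have h5 : (tmix (unifOn S) (1 - ε) : ℝ) ≤ ((2 + k : ℕ) : ℝ) := by exact_mod_cast h4
  push_cast at h5
  linarith

end

end Pool.Agent.W845.Cyc
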