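import Mathlib

open Finset

namespace Pool.Agent.W845.Cyc

noncomputable section

variable {n : ℕ} [NeZero n]

/-- The law after `t` steps of the convolution walk on `ℤ/n` driven by `μ` and started at
`0`, that is the `t`-fold convolution power of `μ`. -/
def law (μ : ZMod n → ℝ) : ℕ → ZMod n → ℝ
  | 0 => fun x => if x = 0 then 1 else 0
  | t + 1 => fun x => ∑ y, law μ t (x - y) * μ y

/-- Total variation distance to the uniform distribution after `t` steps. -/
def tv (μ : ZMod n → ℝ) (t : ℕ) : ℝ := (1 / 2 : ℝ) * ∑ x, |law μ t x - 1 / (n : ℝ)|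

/-- The mixing time `T_mix(ε) = min {t ≥ 0 : ‖μ^{*t} - U‖_TV ≤ ε}`. -/
def tmix (μ : ZMod n → ℝ) (ε : ℝ) : ℕ := sInf {t : ℕ | tv μ t ≤ ε}

/-- The eigenvalue `∑_x μ(x) e^{2πi j x / n}` of the walk. -/
def eig (μ : ZMod n → ℝ) (j : ZMod n) : ℂ :=
  ∑ x : ZMod n, (μ x : ℂ) *
    Complex.exp (2 * Real.pi * Complex.I * ((j.val : ℂ) * (x.val : ℂ)) / (n : ℂ))

/-- The largest absolute value of an eigenvalue with nonzero index `j`. -/
def lamStar (μ : ZMod n → ℝ) : ℝ := ⨆ j : {j : ZMod n // j ≠ 0}, ‖eig μ j.1‖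

/-- The relaxation time `1 / (1 - max_{j ≠ 0} |eig μ j|)`. -/
def trel (μ : ZMod n → ℝ) : ℝ := 1 / (1 - lamStar μ)

/-- `μ` is a probability measure. -/
def IsProb (μ : ZMod n → ℝ) : Prop := (∀ x, 0 ≤ μ x) ∧ ∑ x, μ x = 1

/-- `μ` is symmetric. -/
def IsSymm (μ : ZMod n → ℝ) : Prop := ∀ x, μ (-x) = μ x

/-- The support of `μ` is not contained in a coset of a proper subgroup (equivalently, the
walk is irreducible and aperiodic). -/
def Ergodic (μ : ZMod n → ℝ) : Prop :=
  ∀ (H : AddSubgroup (ZMod n)) (a : ZMod n), (∀ x, μ x ≠ 0 → x - a ∈ H) → H = ⊤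

/-- The uniform probability measure on the finite set `S` (the step law of the simple random
walk on the Cayley graph of `ℤ/n` with generating set `S`). -/
def unifOn (S : Finset (ZMod n)) : ZMod n → ℝ := fun x => if x ∈ S then 1 / (S.card : ℝ) else 0

end

end Pool.Agent.W845.Cyc
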