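import Pool.Agent.W845.Cyc.Facts2
import Pool.Agent.Helper394.Circ

open Finset Filter Topology

namespace Pool.Agent.W845.Cyc

open Pool.Agent.Helper394

noncomputable section

variable {G : Type*} [AddCommGroup G] [Fintype G] [DecidableEq G] {S : Finset G} {T q : ℕ}

theorem ck_mono (hT : 64 ≤ T) {k l : ℕ} (h : k ≤ l) : ck T k ≤ ck T l := by
  have hT' : (64 : ℝ) ≤ T := by exact_mod_cast hT
  have h0 : (0 : ℝ) < 1 / (9 * (T : ℝ)) := by positivity
  have h1 : 1 / (9 * (T : ℝ)) ≤ 1 / 64 := one_div_le_one_div_of_le (by norm_num) (by linarith)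
  have h2 : (1 - 1 / (9 * (T : ℝ))) ^ l ≤ (1 - 1 / (9 * (T : ℝ))) ^ k :=
    pow_le_pow_of_le_one (by linarith) (by linarith) h
  rw [ck, ck]
  linarith

theorem Bad2.lazy_lower (hT : 64 ≤ T) (hq : 64 ≤ q) (h : Bad2 S T q) :
    ∃ E : Finset G, (q : ℝ) * (E.card : ℝ) ≤ Fintype.card G ∧
    ∀ j ≤ T * T, (1 - 1 / (4 * (T : ℝ))) ^ j * (1 - 1 / (q : ℝ)) ≤
      (V S ^ j) (fun x => if x ∈ E then (1 : ℝ) else 0) 0 := by
  have hT' : (64 : ℝ) ≤ T := by exact_mod_cast hT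
  have hq' : (64 : ℝ) ≤ q := by exact_mod_cast hq
  have h0 : (0 : ℝ) < 1 / (4 * (T : ℝ)) := by positivity
  have h1 : 1 / (4 * (T : ℝ)) ≤ 1 / 64 := one_div_le_one_div_of_le (by norm_num) (by linarith)
  have h2 : 1 / (q : ℝ) ≤ 1 / 64 := one_div_le_one_div_of_le (by norm_num) hq'
  obtain ⟨E, hE, hl⟩ := h.lower
  refine ⟨E, hE, fun j hj => ?_⟩
  rw [V_pow_apply]
  set c : ℝ := (1 - 1 / (4 * (T : ℝ))) ^ j * (1 - 1 / (q : ℝ)) with hc
  have h3 := sum_choose_half j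
  calc c = (1 / 2 : ℝ) ^ j * ∑ k ∈ range (j + 1), (j.choose k : ℝ) * c := by
        rw [← Finset.sum_mul, ← mul_assoc, h3, one_mul]
    _ ≤ _ := by
        apply mul_le_mul_of_nonneg_left _ (by positivity)
        apply Finset.sum_le_sum
        intro k hk
        apply mul_le_mul_of_nonneg_left _ (by positivity)
        rw [Finset.mem_range] at hk
        refine le_trans ?_ (hl k (by omega))
        rw [hc]
        apply mul_le_mul_of_nonneg_right _ (by linarith)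
        exact pow_le_pow_of_le_one (by linarith) (by linarith) (by omega)

theorem Bad2.lazy_upper (hT : 64 ≤ T) (h : Bad2 S T q) (k : ℕ)
    (f : G → ℝ) (hf : ∀ x, 0 ≤ f x) (x : G) :
    (ck T k / 2) * ((∑ y, f y) / Fintype.card G) ≤ (V S ^ (2 * (k + 1) + 1)) f x := by
  rw [V_pow_apply]
  have hck : 0 ≤ ck T k := by
    have := ck_mono hT (Nat.zero_le k)
    have h0 : ck T 0 = 0 := by simp [ck]
    linarith
  set mn := (∑ y, f y) / Fintype.card G with hmn
  have hmn0 : 0 ≤ mn := div_nonneg (Finset.sum_nonneg fun _ _ => hf _) (by positivity)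
  have hmn1 : 0 ≤ ck T k * mn := mul_nonneg hck hmn0
  calc (ck T k / 2) * mn = (1 / 2) * (ck T k * mn) := by ring
    _ ≤ ((1 / 2 : ℝ) ^ (2 * (k + 1) + 1) *
      ∑ l ∈ (range (2 * (k + 1) + 1 + 1)).filter (fun l => (k + 1) + 1 ≤ l),
        ((2 * (k + 1) + 1).choose l : ℝ)) * (ck T k * mn) := by
        apply mul_le_mul_of_nonneg_right (sum_choose_upper (k + 1)) hmn1
    _ = (1 / 2 : ℝ) ^ (2 * (k + 1) + 1) *
      ∑ l ∈ (range (2 * (k + 1) + 1 + 1)).filter (fun l => (k + 1) + 1 ≤ l),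
        ((2 * (k + 1) + 1).choose l : ℝ) * (ck T k * mn) := by
        rw [← Finset.sum_mul]; ring
    _ ≤ (1 / 2 : ℝ) ^ (2 * (k + 1) + 1) *
      ∑ l ∈ (range (2 * (k + 1) + 1 + 1)).filter (fun l => (k + 1) + 1 ≤ l),
        ((2 * (k + 1) + 1).choose l : ℝ) * (U S ^ l) f x := by
        apply mul_le_mul_of_nonneg_left _ (by positivity)
        apply Finset.sum_le_sum
        intro l hl
        apply mul_le_mul_of_nonneg_left _ (by positivity)
        rw [Finset.mem_filter] at hl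
        obtain ⟨l', rfl⟩ : ∃ l', l = 2 + l' := ⟨l - 2, by omega⟩
        refine le_trans ?_ (h.upper l' f hf x)
        apply mul_le_mul_of_nonneg_right _ hmn0
        exact ck_mono hT (by omega)
    _ ≤ _ := by
        apply mul_le_mul_of_nonneg_left _ (by positivity)
        apply Finset.sum_le_sum_of_subset_of_nonneg (Finset.filter_subset _ _)
        intro l _ _
        exact mul_nonneg (by positivity) (U_pow_nonneg S l hf x)

theorem Bad2.eigen (hT : 64 ≤ T) (hq : 64 ≤ q) (h : Bad2 S T q) (f : G → ℝ) (hf : f ≠ 0)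
    (lam : ℝ) (hlam : ∀ x, U S f x = lam * f x) (h1 : lam ≠ 1) : |lam| ≤ 3 / 4 := by
  obtain ⟨χ, hχ⟩ := exists_char f hf
  have hS := h.nonempty hT hq
  have hSc : (0 : ℝ) < S.card := by exact_mod_cast hS.card_pos
  have hSc' : (S.card : ℂ) ≠ 0 := by exact_mod_cast hSc.ne'
  set F := ∑ x, (f x : ℂ) * χ x with hF
  have key : ((lam : ℂ) * S.card) * F = (∑ s ∈ S, χ s) * F := by
    have e1 : ∀ x, (lam : ℂ) * S.card * (f x : ℂ) = ∑ s ∈ S, (f (x + s) : ℂ) := by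
      intro x
      have h2 := hlam x
      rw [U_apply, div_eq_iff hSc.ne'] at h2
      have h3 : ((∑ s ∈ S, f (x + s) : ℝ) : ℂ) = ((lam * f x * S.card : ℝ) : ℂ) := by rw [h2]
      push_cast at h3
      rw [h3]; ring
    calc ((lam : ℂ) * S.card) * F = ∑ x, ((lam : ℂ) * S.card * (f x : ℂ)) * χ x := by
          rw [hF, Finset.mul_sum]
          refine Finset.sum_congr rfl fun x _ => by ring
      _ = ∑ x, ∑ s ∈ S, (f (x + s) : ℂ) * χ x := by
          refine Finset.sum_congr rfl fun x _ => ?_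
          rw [e1, Finset.sum_mul]
      _ = ∑ s ∈ S, ∑ x, (f (x + s) : ℂ) * χ x := Finset.sum_comm
      _ = ∑ s ∈ S, χ (-s) * F := by
          refine Finset.sum_congr rfl fun s _ => ?_
          rw [hF, Finset.mul_sum]
          rw [← Equiv.sum_comp (Equiv.subRight s) (fun x => (f (x + s) : ℂ) * χ x)]
          refine Finset.sum_congr rfl fun x _ => ?_
          simp only [Equiv.subRight_apply, sub_add_cancel]
          rw [sub_eq_add_neg, AddChar.map_add_eq_mul]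
          ring
      _ = (∑ s ∈ S, χ (-s)) * F := by rw [Finset.sum_mul]
      _ = (∑ s ∈ S, χ s) * F := by
          congr 1
          refine Finset.sum_bij' (fun s _ => -s) (fun s _ => -s) ?_ ?_ ?_ ?_ ?_
          · exact fun s hs => h.neg s hs
          · exact fun s hs => h.neg s hs
          · intro s _; simp
          · intro s _; simp
          · intro s _; rfl
  have key2 := mul_right_cancel₀ hχ key
  have hχ1 : χ ≠ 1 := by
    intro hχ1
    rw [hχ1] at key2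
    simp only [AddChar.one_apply, Finset.sum_const, nsmul_eq_mul, mul_one] at key2
    have : (lam : ℂ) = 1 := by
      have h3 : (lam : ℂ) * S.card = 1 * S.card := by rw [key2, one_mul]
      exact mul_right_cancel₀ hSc' h3
    apply h1
    exact_mod_cast this
  have h4 := h.char χ hχ1
  rw [← key2, norm_mul] at h4
  have h5 : ‖(S.card : ℂ)‖ = (S.card : ℝ) := by simp
  rw [h5, Complex.norm_real, Real.norm_eq_abs] at h4
  exact le_of_mul_le_mul_right h4 hSc

section matrix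

variable {P : Matrix G G ℝ}

theorem row_sum2 (hT : 64 ≤ T) (hq : 64 ≤ q) (h : Bad2 S T q)
    (hP : ∀ f : G → ℝ, P.mulVec f = V S f) (t : ℕ) (x : G) :
    ∑ y, (P ^ t) x y = 1 := by
  have := mat_sum hP t x (fun _ => 1)
  rw [V_pow_const S (h.nonempty hT hq)] at this
  simpa using this

theorem fact2_lower (hT : 64 ≤ T) (hq : 64 ≤ q) (h : Bad2 S T q)
    (hP : ∀ f : G → ℝ, P.mulVec f = V S f) (t : ℕ) (ht : t ≤ T * T) :
    (1 - 1 / (4 * (T : ℝ))) ^ t * (1 - 1 / (q : ℝ)) - 1 / (q : ℝ) ≤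
      (1 / 2 : ℝ) * ∑ y, |(P ^ t) 0 y - 1 / (Fintype.card G : ℝ)| := by
  obtain ⟨E, hE, hl⟩ := h.lazy_lower hT hq
  refine tv_ge' _ (row_sum2 hT hq h hP t 0) E q _
    (by have : (64 : ℝ) ≤ q := by exact_mod_cast hq
        linarith) hE ?_
  rw [mat_sum hP]
  exact hl t ht

theorem fact2_upper (hT : 64 ≤ T) (hq : 64 ≤ q) (h : Bad2 S T q)
    (hP : ∀ f : G → ℝ, P.mulVec f = V S f) (k : ℕ) (x : G) :
    (1 / 2 : ℝ) * ∑ y, |(P ^ (2 * (k + 1) + 1)) x y - 1 / (Fintype.card G : ℝ)| ≤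
      1 - ck T k / 2 := by
  refine tv_le _ (row_sum2 hT hq h hP _ x) _ (fun y => ?_) (by have := ck_le hT k; linarith)
  rw [mat_entry hP]
  have := h.lazy_upper hT k (Pi.single y 1) (fun z => by
    rw [Pi.single_apply]; split_ifs <;> norm_num) x
  rw [Finset.sum_pi_single' y (1 : ℝ) univ] at this
  simp only [Finset.mem_univ, if_true] at this
  calc (ck T k / 2) / Fintype.card G = (ck T k / 2) * (1 / Fintype.card G) := by ring
    _ ≤ _ := this

theorem fact2_conv (hT : 64 ≤ T) (hq : 64 ≤ q) (h : Bad2 S T q)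
    (hP : ∀ f : G → ℝ, P.mulVec f = V S f) (ε : ℝ) (hε : 0 < ε) :
    ∃ t : ℕ, ∀ x y, |(P ^ t) x y - 1 / (Fintype.card G : ℝ)| ≤ ε := by
  have hc := ck_pos hT
  obtain ⟨k, hk⟩ := exists_pow_lt_of_lt_one hε (show (1 - ck T T / 2 : ℝ) < 1 by linarith)
  refine ⟨(2 * (T + 1) + 1) * k, fun x y => ?_⟩
  rw [mat_entry hP]
  have h1 := doeblin (V S ^ (2 * (T + 1) + 1)) (ck T T / 2)
    (fun a => V_pow_const S (h.nonempty hT hq) _ a)
    (fun f => sum_V_pow S (h.nonempty hT hq) _ f)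
    (fun f hf x => h.lazy_upper hT T f hf x) (Pi.single y 1) 0 1
    (fun z => by rw [Pi.single_apply]; split_ifs <;> norm_num)
    (fun z => by rw [Pi.single_apply]; split_ifs <;> norm_num) k x
  rw [Finset.sum_pi_single' y (1 : ℝ) univ] at h1
  simp only [Finset.mem_univ, if_true, sub_zero, mul_one] at h1
  rw [pow_mul]
  exact h1.trans hk.le

theorem fact2_spec (hT : 64 ≤ T) (hq : 64 ≤ q) (h : Bad2 S T q)
    (hP : ∀ f : G → ℝ, P.mulVec f = V S f) (lam : ℝ)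
    (hlam : lam ∈ spectrum ℝ P) (h1 : lam ≠ 1) : 1 / 8 ≤ lam ∧ lam ≤ 7 / 8 := by
  rw [← Matrix.spectrum_toLin', ← Module.End.hasEigenvalue_iff_mem_spectrum] at hlam
  obtain ⟨f, hf⟩ := hlam.exists_hasEigenvector
  have hf0 := hf.2
  have hf1 := hf.apply_eq_smul
  rw [Matrix.toLin'_apply, hP] at hf1
  have h2 : ∀ x, U S f x = (2 * lam - 1) * f x := by
    intro x
    have := congrFun hf1 x
    rw [V_apply, Pi.smul_apply, smul_eq_mul] at this
    linarith
  have h3 := h.eigen hT hq f hf0 (2 * lam - 1) h2 (by intro h4; apply h1; linarith)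
  rw [abs_le] at h3
  constructor <;> linarith

end matrix

/-- lower bound for the mixing time of the lazy walk -/
theorem mix_ge (hT : 64 ≤ T) (hq : 64 ≤ q) (d : ℕ → ℝ)
    (hlow : ∀ t ≤ T * T,
      (1 - 1 / (4 * (T : ℝ))) ^ t * (1 - 1 / (q : ℝ)) - 1 / (q : ℝ) ≤ d t)
    (M : ℕ) (hM : M ≤ T) (ε : ℝ) (hne : ∃ t, d t ≤ ε)
    (hε1 : ε + 2 / (q : ℝ) < (3 / 4 : ℝ) ^ M) :
    M * T < sInf {t : ℕ | d t ≤ ε} := by
  have hT' : (64 : ℝ) ≤ T := by exact_mod_cast hT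
  have hq' : (64 : ℝ) ≤ q := by exact_mod_cast hq
  have hmem := Nat.sInf_mem (show {t : ℕ | d t ≤ ε}.Nonempty from hne)
  by_contra hcon
  push Not at hcon
  set τ := sInf {t : ℕ | d t ≤ ε} with hτ
  have hmem' : d τ ≤ ε := hmem
  have h1 := hlow τ (hcon.trans (Nat.mul_le_mul_right _ hM))
  have hx0 : (0 : ℝ) < 1 / (4 * (T : ℝ)) := by positivity
  have hx1 : 1 / (4 * (T : ℝ)) ≤ 1 / 64 := one_div_le_one_div_of_le (by norm_num) (by linarith)
  have h2 : (1 - 1 / (4 * (T : ℝ))) ^ (M * T) ≤ (1 - 1 / (4 * (T : ℝ))) ^ τ :=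
    pow_le_pow_of_le_one (by linarith) (by linarith) hcon
  have h3 : (3 / 4 : ℝ) ≤ (1 - 1 / (4 * (T : ℝ))) ^ T := by
    have h4 : (1 : ℝ) + T * (-(1 / (4 * (T : ℝ)))) ≤ (1 + (-(1 / (4 * (T : ℝ))))) ^ T := by
      apply one_add_mul_le_pow
      linarith
    have h5 : (1 : ℝ) + T * (-(1 / (4 * (T : ℝ)))) = 3 / 4 := by field_simp; norm_num
    rw [h5] at h4
    simpa [sub_eq_add_neg] using h4
  have h4 : (3 / 4 : ℝ) ^ M ≤ (1 - 1 / (4 * (T : ℝ))) ^ (M * T) := by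
    rw [mul_comm M T, pow_mul]
    exact pow_le_pow_left₀ (by norm_num) h3 M
  have h5 : (1 - 1 / (4 * (T : ℝ))) ^ τ ≤ 1 :=
    pow_le_one₀ (by linarith) (by linarith)
  have h6 : (0 : ℝ) < 1 / q := by positivity
  have h7 : (2 : ℝ) / q = 1 / q + 1 / q := by ring
  rw [h7] at hε1
  nlinarith

/-- upper bound for the mixing time of the lazy walk -/
theorem mix_le (hT : 64 ≤ T) (d : ℕ → ℝ)
    (hup : ∀ k : ℕ, d (2 * (k + 1) + 1) ≤ 1 - ck T k / 2) (ε : ℝ) (hε : 0 < ε)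
    (hε1 : ε ≤ 1 / 20) : ((sInf {t : ℕ | d t ≤ 1 - ε} : ℕ) : ℝ) ≤ 180 * ε * T + 5 := by
  have hT' : (64 : ℝ) ≤ T := by exact_mod_cast hT
  set k := ⌈90 * ε * (T : ℝ)⌉₊ with hk
  have hk1 : 90 * ε * (T : ℝ) ≤ k := Nat.le_ceil _
  have hk2 : (k : ℝ) < 90 * ε * T + 1 := Nat.ceil_lt_add_one (by positivity)
  have hk3 : k ≤ 9 * T := by
    have : (k : ℝ) ≤ 9 * T := by nlinarith
    exact_mod_cast this
  have h1 := hup k
  have h2 := ck_ge hT k hk3
  have h3 : 2 * ε ≤ (k : ℝ) / (45 * T) := by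
    rw [le_div_iff₀ (by positivity)]
    linarith
  have h4 : sInf {t : ℕ | d t ≤ 1 - ε} ≤ 2 * (k + 1) + 1 := Nat.sInf_le (by
    show d (2 * (k + 1) + 1) ≤ 1 - ε
    linarith)
  have h5 : ((sInf {t : ℕ | d t ≤ 1 - ε} : ℕ) : ℝ) ≤ ((2 * (k + 1) + 1 : ℕ) : ℝ) := by
    exact_mod_cast h4
  push_cast at h5
  linarith

end

end Pool.Agent.W845.Cyc
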